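import Pool.Agent.W295.NL.StmD

/-! Part NL-DO of project NL (helper295). -/

set_option autoImplicit false

namespace Pool.Agent.W166.NL.DO

open Pool.Agent.W295.NL

theorem main : Pool.Agent.W295.NL.S_DO := by
  intro Q Q' _ L L' φ _ _ hφ _ hblock hdup
  obtain ⟨D', hr, hc, hs⟩ := hdup
  unfold OddBlock at hblock
  choose G ig fg α β γ hodd hα hβ hγ hmul using hblock
  let Φ : Q × Q → Q' × Q' := fun p => (φ p.1, φ p.2)
  let D : Set (Q × Q) := {p | ∃ a b, φ p.1 = a ∧ φ p.2 = b ∧ (a, b) ∈ D' ∧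
    α a b p.1 = β a b p.2}
  refine ⟨D, ?_, ?_, ?_⟩
  · intro r
    rw [← hr (φ r)]
    have himg : Φ '' {p | p ∈ D ∧ p.1 = r} = {p | p ∈ D' ∧ p.1 = φ r} := by
      ext ⟨i, j⟩
      constructor
      · rintro ⟨⟨x, y⟩, ⟨⟨a, b, h1, h2, h3, h4⟩, h5⟩, h6⟩
        simp only [Φ, Prod.mk.injEq] at h6
        obtain ⟨h6, h7⟩ := h6
        simp only at h1 h2 h5
        subst h5 h6 h7 h1 h2
        exact ⟨h3, rfl⟩
      · rintro ⟨h1, h2⟩
        simp only at h2
        subst h2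
        obtain ⟨c, hc1, hc2⟩ := (hβ (φ r) j).surjOn (Set.mem_univ (α (φ r) j r))
        refine ⟨(r, c), ⟨⟨φ r, j, rfl, hc1, h1, hc2.symm⟩, rfl⟩, ?_⟩
        simp only [Φ, Prod.mk.injEq, true_and]
        exact hc1
    have hinj : Set.InjOn Φ {p | p ∈ D ∧ p.1 = r} := by
      rintro ⟨x, y⟩ ⟨⟨a, b, h1, h2, h3, h4⟩, h5⟩ ⟨x', y'⟩ ⟨⟨a', b', h1', h2', h3', h4'⟩, h5'⟩ h
      simp only [Φ, Prod.mk.injEq] at h
      simp only at h1 h2 h4 h5 h1' h2' h4' h5'
      obtain ⟨h6, h7⟩ := h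
      subst h5
      subst h5'
      have ha : a' = a := by rw [← h1, ← h1']
      have hb : b' = b := by rw [← h2, ← h2', h7]
      subst ha hb
      have h8 : y = y' := (hβ a' b').injOn h2 h2' (by rw [← h4, ← h4'])
      rw [h8]
    rw [← himg, Set.ncard_image_of_injOn hinj]
  · intro c
    rw [← hc (φ c)]
    have himg : Φ '' {p | p ∈ D ∧ p.2 = c} = {p | p ∈ D' ∧ p.2 = φ c} := by
      ext ⟨i, j⟩
      constructor
      · rintro ⟨⟨x, y⟩, ⟨⟨a, b, h1, h2, h3, h4⟩, h5⟩, h6⟩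
        simp only [Φ, Prod.mk.injEq] at h6
        obtain ⟨h6, h7⟩ := h6
        simp only at h1 h2 h5
        subst h5 h6 h7 h1 h2
        exact ⟨h3, rfl⟩
      · rintro ⟨h1, h2⟩
        simp only at h2
        subst h2
        obtain ⟨r, hr1, hr2⟩ := (hα i (φ c)).surjOn (Set.mem_univ (β i (φ c) c))
        refine ⟨(r, c), ⟨⟨i, φ c, hr1, rfl, h1, hr2⟩, rfl⟩, ?_⟩
        simp only [Φ, Prod.mk.injEq, and_true]
        exact hr1
    have hinj : Set.InjOn Φ {p | p ∈ D ∧ p.2 = c} := by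
      rintro ⟨x, y⟩ ⟨⟨a, b, h1, h2, h3, h4⟩, h5⟩ ⟨x', y'⟩ ⟨⟨a', b', h1', h2', h3', h4'⟩, h5'⟩ h
      simp only [Φ, Prod.mk.injEq] at h
      simp only at h1 h2 h4 h5 h1' h2' h4' h5'
      obtain ⟨h6, h7⟩ := h
      subst h5
      subst h5'
      have ha : a' = a := by rw [← h1, ← h1', h6]
      have hb : b' = b := by rw [← h2, ← h2']
      subst ha hb
      have h8 : x = x' := (hα a' b').injOn h1 h1' (by rw [h4, h4'])
      rw [h8]
    rw [← himg, Set.ncard_image_of_injOn hinj]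
  · intro s
    rw [← hs (φ s)]
    have himg : Φ '' {p | p ∈ D ∧ L p.1 p.2 = s} = {p | p ∈ D' ∧ L' p.1 p.2 = φ s} := by
      ext ⟨i, j⟩
      constructor
      · rintro ⟨⟨x, y⟩, ⟨⟨a, b, h1, h2, h3, h4⟩, h5⟩, h6⟩
        simp only [Φ, Prod.mk.injEq] at h6
        obtain ⟨h6, h7⟩ := h6
        simp only at h1 h2 h5
        subst h5 h6 h7 h1 h2
        exact ⟨h3, (hφ x y).symm⟩
      · rintro ⟨h1, h2⟩
        simp only at h2
        letI := ig i j
        have hcop : (Nat.card (G i j)).Coprime 2 := Nat.coprime_two_right.2 (hodd i j)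
        obtain ⟨g, hg⟩ := (powCoprime hcop).surjective (γ i j s)
        have hg2 : g * g = γ i j s := by
          rw [← hg]
          simp [powCoprime, pow_two]
        obtain ⟨r, hr1, hr2⟩ := (hα i j).surjOn (Set.mem_univ g)
        obtain ⟨c, hc1, hc2⟩ := (hβ i j).surjOn (Set.mem_univ g)
        have hr1' : φ r = i := hr1
        have hc1' : φ c = j := hc1
        refine ⟨(r, c), ⟨⟨i, j, hr1, hc1, h1, by rw [hr2, hc2]⟩, ?_⟩, ?_⟩
        · have h3 := hmul i j r c hr1 hc1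
          rw [hr2, hc2] at h3
          refine (hγ i j).injOn ?_ ?_ (h3.trans hg2)
          · show φ (L r c) = L' i j
            rw [hφ, hr1', hc1']
          · exact h2.symm
        · simp only [Φ, Prod.mk.injEq]
          exact ⟨hr1, hc1⟩
    have hinj : Set.InjOn Φ {p | p ∈ D ∧ L p.1 p.2 = s} := by
      rintro ⟨x, y⟩ ⟨⟨a, b, h1, h2, h3, h4⟩, h5⟩ ⟨x', y'⟩ ⟨⟨a', b', h1', h2', h3', h4'⟩, h5'⟩ h
      simp only [Φ, Prod.mk.injEq] at h
      simp only at h1 h2 h4 h5 h1' h2' h4' h5'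
      obtain ⟨h6, h7⟩ := h
      have ha : a' = a := by rw [← h1, ← h1', h6]
      have hb : b' = b := by rw [← h2, ← h2', h7]
      subst ha hb
      letI := ig a' b'
      have hcop : (Nat.card (G a' b')).Coprime 2 := Nat.coprime_two_right.2 (hodd a' b')
      have e1 := hmul a' b' x y h1 h2
      have e2 := hmul a' b' x' y' h1' h2'
      rw [h5, ← h4] at e1
      rw [h5', ← h4'] at e2
      have e3 : α a' b' x = α a' b' x' := by
        apply (powCoprime hcop).injective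
        simp only [powCoprime, Equiv.coe_fn_mk, pow_two]
        rw [← e1, ← e2]
      have h8 : x = x' := (hα a' b').injOn h1 h1' e3
      have h9 : y = y' := (hβ a' b').injOn h2 h2' (by rw [← h4, ← h4', e3])
      rw [h8, h9]
    rw [← himg, Set.ncard_image_of_injOn hinj]

end Pool.Agent.W166.NL.DO
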